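import Pool.Agent.H67.KS.Dim

/-!
# The middle dimension with an arbitrary symmetric form
-/

set_option autoImplicit false

namespace Pool.Agent.H67.KS

open Finset MvPolynomial Pool.Agent.W555.KS Pool.Agent.W500.KS Pool.Agent.W646.KS
  Pool.Agent.W977.KS Pool.Agent.Y131.KS

variable {n : ℕ}

section

variable {T : Type*} [CommRing T] {m : ℕ}

lemma coeff_Xpd (i : Fin m) (P : MvPolynomial (Fin m) T) (μ : Fin m →₀ ℕ) :
    coeff μ (X i * pderiv i P) = (μ i : T) * coeff μ P := by
  classical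
  induction P using MvPolynomial.induction_on' with
  | monomial s c =>
    rw [X_mul_pderiv_monomial, coeff_smul, coeff_monomial]
    split_ifs with h
    · rw [h, nsmul_eq_mul]
    · rw [smul_zero, mul_zero]
  | add p q hp hq =>
    rw [map_add, mul_add, coeff_add, hp, hq, coeff_add, mul_add]

/-- products of the linear forms -/
noncomputable abbrev el (a : Fin m → Fin n → T) (σ : Finset (Fin n)) : MvPolynomial (Fin m) T :=
  ∏ v ∈ σ, lin a v

lemma el_self (h2 : (2 : T) = 0) (i0 : Fin m) (a : Fin m → Fin n → T) (σ : Finset (Fin n))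
    (hσ : 2 ≤ σ.card) : coeff (d0 m) (el a σ * (X i0 * pderiv i0 (el a σ))) = 0 := by
  classical
  apply coeff_J
  obtain ⟨w, hw⟩ : σ.Nonempty := by
    rw [← card_pos]
    omega
  obtain ⟨v, hv⟩ : (σ.erase w).Nonempty := by
    rw [← card_pos, card_erase_of_mem hw]
    omega
  unfold el
  rw [← mul_prod_erase σ _ hw, ← mul_prod_erase (σ.erase w) _ hv]
  set R : MvPolynomial (Fin m) T := ∏ x ∈ (σ.erase w).erase v, lin a x with hR
  rw [Derivation.leibniz, smul_eq_mul, smul_eq_mul]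
  have e2 : lin a w * (lin a v * R) * (X i0 * (lin a w * pderiv i0 (lin a v * R) +
      lin a v * R * pderiv i0 (lin a w))) =
      (lin a v * R * X i0 * pderiv i0 (lin a v * R)) * (lin a w * lin a w) +
      (R * X i0 * lin a w * R * pderiv i0 (lin a w)) * (lin a v * lin a v) := by ring
  rw [e2]
  exact Ideal.add_mem _ (Ideal.mul_mem_left _ _ (lin_sq h2 a w))
    (Ideal.mul_mem_left _ _ (lin_sq h2 a v))

lemma el_swap (h2 : (2 : T) = 0) (i0 : Fin m) (a : Fin m → Fin n → T) (σ τ : Finset (Fin n)) :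
    coeff (d0 m) (el a σ * (X i0 * pderiv i0 (el a τ))) +
      coeff (d0 m) (el a τ * (X i0 * pderiv i0 (el a σ))) =
      if Disjoint σ τ then bra a (σ ∪ τ) else 0 := by
  rw [← coeff_pair h2 a σ τ, ← coeff_add]
  have e : el a σ * (X i0 * pderiv i0 (el a τ)) + el a τ * (X i0 * pderiv i0 (el a σ)) =
      X i0 * pderiv i0 (el a σ * el a τ) := by
    rw [Derivation.leibniz, smul_eq_mul, smul_eq_mul]
    ring
  rw [e, coeff_Xpd, d0_apply, Nat.cast_one, one_mul]

open Classical in
/-- the half of the square -/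
noncomputable def HF (a : Fin m → Fin n → T) (f g : Finset (Fin n) → T) : T :=
  ∑ p : Finset (Fin n) × Finset (Fin n),
    if mn p.1 p.2 ∧ Disjoint p.1 p.2 then f p.1 * g p.2 * bra a (p.1 ∪ p.2) else 0

lemma HF_add (h2 : (2 : T) = 0) (a : Fin m → Fin n → T) (f g : Finset (Fin n) → T)
    (hf : f ∅ = 0) : HF a f g + HF a g f = coeff (d0 m) (GF a f * GF a g) := by
  classical
  rw [coeff_GF_mul h2]
  have e1 : HF a g f = ∑ p : Finset (Fin n) × Finset (Fin n),
      if mn p.2 p.1 ∧ Disjoint p.1 p.2 then f p.1 * g p.2 * bra a (p.1 ∪ p.2) else 0 := by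
    unfold HF
    rw [← Equiv.sum_comp (Equiv.prodComm (Finset (Fin n)) (Finset (Fin n)))]
    refine sum_congr rfl fun p _ => ?_
    simp only [Equiv.prodComm_apply, Prod.fst_swap, Prod.snd_swap]
    by_cases hc : mn p.2 p.1 ∧ Disjoint p.1 p.2
    · rw [if_pos hc, if_pos ⟨hc.1, hc.2.symm⟩, union_comm, mul_comm (g p.2)]
    · rw [if_neg hc, if_neg (fun h => hc ⟨h.1, h.2.symm⟩)]
  rw [e1]
  unfold HF
  rw [← sum_add_distrib]
  refine sum_congr rfl fun p _ => ?_
  by_cases hd : Disjoint p.1 p.2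
  · simp only [hd, and_true, if_true]
    by_cases hne : (p.1 ∪ p.2).Nonempty
    · have h := mn_swap hd hne
      by_cases h1 : mn p.1 p.2
      · have h3 : ¬ mn p.2 p.1 := fun h' => (h.1 h') h1
        rw [if_pos h1, if_neg h3, add_zero]
      · have h3 : mn p.2 p.1 := h.2 h1
        rw [if_neg h1, if_pos h3, zero_add]
    · rw [not_nonempty_iff_eq_empty, union_eq_empty] at hne
      rw [hne.1, hf]
      simp
  · simp only [hd, and_false, if_false, add_zero]

lemma HF_self (h2 : (2 : T) = 0) (i0 : Fin m) (a : Fin m → Fin n → T) (f : Finset (Fin n) → T)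
    (hf : ∀ σ, σ.card < 2 → f σ = 0) :
    HF a f f = coeff (d0 m) (GF a f * (X i0 * pderiv i0 (GF a f))) := by
  classical
  let t : Finset (Fin n) × Finset (Fin n) → T := fun p =>
    coeff (d0 m) (el a p.1 * (X i0 * pderiv i0 (el a p.2)))
  have e0 : coeff (d0 m) (GF a f * (X i0 * pderiv i0 (GF a f))) =
      ∑ p : Finset (Fin n) × Finset (Fin n), f p.1 * f p.2 * t p := by
    unfold GF
    rw [map_sum, mul_sum, sum_mul_sum, coeff_sum, Fintype.sum_prod_type]
    refine sum_congr rfl fun σ _ => ?_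
    rw [coeff_sum]
    refine sum_congr rfl fun τ _ => ?_
    have e : C (f σ) * (∏ v ∈ σ, lin a v) * (X i0 * pderiv i0 (C (f τ) * ∏ v ∈ τ, lin a v)) =
        C (f σ * f τ) * (el a σ * (X i0 * pderiv i0 (el a τ))) := by
      rw [pderiv_C_mul, map_mul]; ring
    rw [e, coeff_C_mul]
  have e1 : ∑ p : Finset (Fin n) × Finset (Fin n), f p.1 * f p.2 * t p =
      ∑ p : Finset (Fin n) × Finset (Fin n),
        (if Disjoint p.1 p.2 then f p.1 * f p.2 * t p else 0) +
      ∑ p : Finset (Fin n) × Finset (Fin n),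
        (if Disjoint p.1 p.2 then 0 else f p.1 * f p.2 * t p) := by
    rw [← sum_add_distrib]
    refine sum_congr rfl fun p _ => ?_
    split_ifs <;> simp
  have e2 : ∑ p : Finset (Fin n) × Finset (Fin n),
        (if Disjoint p.1 p.2 then 0 else f p.1 * f p.2 * t p) = 0 := by
    have hs : ∀ p : Finset (Fin n) × Finset (Fin n), ¬ Disjoint p.1 p.2 →
        t p + t p.swap = 0 := by
      intro p hp
      have := el_swap h2 i0 a p.1 p.2
      rw [if_neg hp] at this
      exact this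
    refine Finset.sum_involution (fun p _ => p.swap) ?_ ?_ ?_ ?_
    · intro p _
      simp only [Prod.fst_swap, Prod.snd_swap]
      by_cases hd : Disjoint p.1 p.2
      · rw [if_pos hd, if_pos hd.symm, add_zero]
      · rw [if_neg hd, if_neg (fun h => hd h.symm), mul_comm (f p.2), ← mul_add, hs p hd, mul_zero]
    · intro p _ hne hp
      apply hne
      have h1 : p.2 = p.1 := congrArg Prod.fst hp
      by_cases hd : Disjoint p.1 p.2
      · rw [if_pos hd]
      · rw [if_neg hd]
        by_cases hc : p.1.card < 2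
        · rw [hf _ hc, zero_mul, zero_mul]
        · have h3 : t p = 0 := by
            simp only [t]
            rw [h1]
            exact el_self h2 i0 a _ (by omega)
          rw [h3, mul_zero]
    · intro p _; exact mem_univ _
    · intro p _; exact Prod.swap_swap p
  have e3 : ∑ p : Finset (Fin n) × Finset (Fin n),
        (if Disjoint p.1 p.2 then f p.1 * f p.2 * t p else 0) = HF a f f := by
    have h1 : ∑ p : Finset (Fin n) × Finset (Fin n),
        (if Disjoint p.1 p.2 then f p.1 * f p.2 * t p else 0) =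
        ∑ p : Finset (Fin n) × Finset (Fin n),
          (if mn p.1 p.2 ∧ Disjoint p.1 p.2 then f p.1 * f p.2 * t p else 0) +
        ∑ p : Finset (Fin n) × Finset (Fin n),
          (if mn p.2 p.1 ∧ Disjoint p.1 p.2 then f p.1 * f p.2 * t p else 0) := by
      rw [← sum_add_distrib]
      refine sum_congr rfl fun p _ => ?_
      by_cases hd : Disjoint p.1 p.2
      · simp only [hd, and_true, if_true]
        by_cases hne : (p.1 ∪ p.2).Nonempty
        · have h := mn_swap hd hne
          by_cases h1 : mn p.1 p.2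
          · have h3 : ¬ mn p.2 p.1 := fun h' => (h.1 h') h1
            rw [if_pos h1, if_neg h3, add_zero]
          · have h3 : mn p.2 p.1 := h.2 h1
            rw [if_neg h1, if_pos h3, zero_add]
        · rw [not_nonempty_iff_eq_empty, union_eq_empty] at hne
          rw [hne.1, hf ∅ (by simp)]
          simp
      · simp only [hd, and_false, if_false, add_zero]
    have h3 : ∑ p : Finset (Fin n) × Finset (Fin n),
          (if mn p.2 p.1 ∧ Disjoint p.1 p.2 then f p.1 * f p.2 * t p else 0) =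
        ∑ p : Finset (Fin n) × Finset (Fin n),
          (if mn p.1 p.2 ∧ Disjoint p.1 p.2 then f p.1 * f p.2 * t p.swap else 0) := by
      rw [← Equiv.sum_comp (Equiv.prodComm (Finset (Fin n)) (Finset (Fin n)))]
      refine sum_congr rfl fun p _ => ?_
      simp only [Equiv.prodComm_apply, Prod.fst_swap, Prod.snd_swap]
      by_cases hc : mn p.1 p.2 ∧ Disjoint p.1 p.2
      · rw [if_pos hc, if_pos ⟨hc.1, hc.2.symm⟩, mul_comm (f p.2)]
      · rw [if_neg hc, if_neg (fun h => hc ⟨h.1, h.2.symm⟩)]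
    rw [h1, h3, ← sum_add_distrib]
    unfold HF
    refine sum_congr rfl fun p _ => ?_
    by_cases hc : mn p.1 p.2 ∧ Disjoint p.1 p.2
    · rw [if_pos hc, if_pos hc, if_pos hc, ← mul_add]
      congr 1
      have := el_swap h2 i0 a p.1 p.2
      rw [if_pos hc.2] at this
      exact this
    · rw [if_neg hc, if_neg hc, if_neg hc, add_zero]
  rw [e0, e1, e2, e3, add_zero]

/-- vanishing of the squarefree coefficients of degree `q` without the index `i0` -/
def Half (i0 : Fin m) (q : ℕ) (F : MvPolynomial (Fin m) T) : Prop :=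
  ∀ I : Finset (Fin m), I.card = q → i0 ∉ I → coeff (sq I) F = 0

lemma half_zero (i0 : Fin m) (a : Fin m → Fin n → T) (f : Finset (Fin n) → T)
    (q : ℕ) (hf : ∀ σ, σ.card ≠ q → f σ = 0) (hF : Half i0 q (GF a f))
    (p : Fin m →₀ ℕ) (hp : p ≤ d0 m) (hp0 : p i0 = 0) : coeff p (GF a f) = 0 := by
  obtain ⟨I, hI⟩ := le_d0 hp
  have hI0 : i0 ∉ I := by
    intro h
    rw [hI, sq_apply, if_pos h] at hp0
    exact one_ne_zero hp0
  by_cases hc : I.card = q
  · rw [hI, hF I hc hI0]
  · exact (GF_hom a f q hf).coeff_eq_zero (d := p) (by rw [hI, sq_degree]; exact hc)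

lemma top_zero2 (i0 : Fin m) (a : Fin m → Fin n → T) (f g : Finset (Fin n) → T) (q : ℕ)
    (hf : ∀ σ, σ.card ≠ q → f σ = 0) (hg : ∀ σ, σ.card ≠ q → g σ = 0)
    (hF : Half i0 q (GF a f)) (hG : Half i0 q (GF a g)) :
    coeff (d0 m) (GF a f * GF a g) = 0 := by
  classical
  rw [coeff_mul]
  refine sum_eq_zero fun p hp => ?_
  rw [HasAntidiagonal.mem_antidiagonal] at hp
  have h1 : p.1 ≤ d0 m := by rw [← hp]; exact le_self_add
  have h2 : p.2 ≤ d0 m := by rw [← hp]; exact le_add_self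
  have h3 : p.1 i0 + p.2 i0 = 1 := by
    rw [← Finsupp.add_apply, hp, d0_apply]
  rcases Nat.eq_zero_or_pos (p.1 i0) with h | h
  · rw [half_zero i0 a f q hf hF p.1 h1 h, zero_mul]
  · rw [half_zero i0 a g q hg hG p.2 h2 (by omega), mul_zero]

lemma half_sq (i0 : Fin m) (a : Fin m → Fin n → T) (f : Finset (Fin n) → T) (q : ℕ)
    (hf : ∀ σ, σ.card ≠ q → f σ = 0) (hF : Half i0 q (GF a f)) :
    coeff (d0 m) (GF a f * (X i0 * pderiv i0 (GF a f))) = 0 := by
  classical
  rw [coeff_mul]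
  refine sum_eq_zero fun p hp => ?_
  rw [HasAntidiagonal.mem_antidiagonal] at hp
  have h1 : p.1 ≤ d0 m := by rw [← hp]; exact le_self_add
  have h3 : p.1 i0 + p.2 i0 = 1 := by
    rw [← Finsupp.add_apply, hp, d0_apply]
  rw [coeff_Xpd]
  rcases Nat.eq_zero_or_pos (p.1 i0) with h | h
  · rw [half_zero i0 a f q hf hF p.1 h1 h, zero_mul]
  · have h4 : p.2 i0 = 0 := by omega
    rw [h4, Nat.cast_zero, zero_mul, mul_zero]

end

open Classical in
/-- the obstruction is given by the form `Ω` -/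
def IsForm {b : ℕ} (L : Finset (Finset (Fin n))) (q : ℕ) (Ω : Fin b → Fin b → ZMod 2)
    (ψ : Fin b → Finset (Fin n) → ZMod 2) : Prop :=
  (∀ i j, Ω i j = Ω j i) ∧
  ∀ Z : Finset (Fin n) → Finset (Fin n) → ZMod 2, MidCyc L q Z →
    ∑ U ∈ powersetCard (2 * q) univ, Z (evenPart U) (oddPart U) =
      ∑ i, ∑ j, ∑ p : Finset (Fin n) × Finset (Fin n),
        if mn p.1 p.2 then Ω i j * ψ i p.1 * ψ j p.2 * Z p.1 p.2 else 0

open Classical in
lemma form_field {L : Finset (Finset (Fin n))} {q b : ℕ} {Ω : Fin b → Fin b → ZMod 2}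
    {ψ : Fin b → Finset (Fin n) → ZMod 2}
    (h : IsForm L q Ω ψ) (k : Type) [Field k] [CharP k 2] (Z : Finset (Fin n) → Finset (Fin n) → k)
    (hZ : MidCyc L q Z) :
    ∑ U ∈ powersetCard (2 * q) univ, Z (evenPart U) (oddPart U) =
      ∑ i, ∑ j, ∑ p : Finset (Fin n) × Finset (Fin n),
        if mn p.1 p.2 then cc k (Ω i j) * cc k (ψ i p.1) * cc k (ψ j p.2) * Z p.1 p.2 else 0 := by
  let _ : Algebra (ZMod 2) k := ZMod.algebra k 2
  rw [← sub_eq_zero, ← Module.forall_dual_apply_eq_zero_iff (ZMod 2)]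
  intro φ
  have key : ∀ (o a b : ZMod 2) (z : k), φ (cc k o * cc k a * cc k b * z) = o * a * b * φ z := by
    intro o a b z
    have h1 : cc k o * cc k a * cc k b * z = (o * a * b) • z := by
      rw [Algebra.smul_def, ← map_mul, ← map_mul]
      congr 1
    rw [h1, map_smul, smul_eq_mul]
  have h2 := h.2 (fun σ τ => φ (Z σ τ)) ⟨fun σ τ => congrArg φ (hZ.1 σ τ), ?_, ?_⟩
  · rw [map_sub, map_sum, map_sum, sub_eq_zero, h2]
    refine sum_congr rfl fun i _ => ?_
    rw [map_sum]
    refine sum_congr rfl fun j _ => ?_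
    rw [map_sum]
    refine sum_congr rfl fun p _ => ?_
    split_ifs with hp
    · exact (key _ _ _ _).symm
    · rw [map_zero]
  · intro σ τ h'
    refine hZ.2.1 σ τ ?_
    intro h''
    apply h'
    show φ (Z σ τ) = 0
    rw [h'', map_zero]
  · intro ρ τ h1 h3 h4
    have := congrArg φ (hZ.2.2 ρ τ h1 h3 h4)
    rwa [map_sum, map_zero] at this

section core

variable {k R : Type} [Field k] [CharP k 2] [CommRing R] [Algebra k R] {d q : ℕ}

lemma coreF (hq2 : 2 ≤ q) (hq : d + 1 = 2 * q) {L : Finset (Finset (Fin n))}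
    (a : Fin (d + 1) → Fin n → k) (x : Fin n → R) (M : R →ₗ[k] k)
    (hface : ∀ σ, σ ∉ L → ∏ v ∈ σ, x v = 0) (ha : ∀ i, ∑ v, a i v • x v = 0)
    {b : ℕ} {Ω : Fin b → Fin b → ZMod 2} {ψ : Fin b → Finset (Fin n) → ZMod 2}
    (hrk : IsForm L q Ω ψ)
    (hM : ∀ j, Half (0 : Fin (d + 1)) q (GF a (fM q x (fun σ => cc k (ψ j σ)) M))) :
    ∑ h ∈ (univ : Finset (Fin (d + 1) → Fin n)).filter EvenFun,
      (∏ i, a i (h i)) * M (halfMon x h) ^ 2 = 0 := by
  classical
  have h2k : (2 : k) = 0 := CharP.cast_eq_zero k 2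
  have e0 := form_field hrk k (Zq q a x M) (Zq_cyc hq a x M hface ha)
  let f : Fin b → Finset (Fin n) → k := fun j => fM q x (fun σ => cc k (ψ j σ)) M
  have hf : ∀ j σ, σ.card ≠ q → f j σ = 0 := by
    intro j σ hσ
    simp only [f]
    unfold fM
    rw [if_neg hσ]
  have e1 : ∀ i j, ∑ p : Finset (Fin n) × Finset (Fin n),
      (if mn p.1 p.2 then cc k (Ω i j) * cc k (ψ i p.1) * cc k (ψ j p.2) * Zq q a x M p.1 p.2
        else 0) = cc k (Ω i j) * HF a (f i) (f j) := by
    intro i j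
    unfold HF
    rw [mul_sum]
    refine sum_congr rfl fun p _ => ?_
    simp only [f]
    unfold Zq fM
    by_cases c0 : mn p.1 p.2
    · by_cases c1 : Disjoint p.1 p.2
      · by_cases c2 : p.1.card = q
        · by_cases c3 : p.2.card = q
          · rw [if_pos c0, if_pos ⟨c1, c2, c3⟩, if_pos ⟨c0, c1⟩, if_pos c2, if_pos c3]
            ring
          · rw [if_pos c0, if_neg (fun h => c3 h.2.2), if_pos ⟨c0, c1⟩, if_neg c3]
            ring
        · rw [if_pos c0, if_neg (fun h => c2 h.2.1), if_pos ⟨c0, c1⟩, if_neg c2]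
          ring
      · rw [if_pos c0, if_neg (fun h => c1 h.1), if_neg (fun h => c1 h.2), mul_zero, mul_zero]
    · rw [if_neg c0, if_neg (fun h => c0 h.1), mul_zero]
  have e2 : ∑ i, ∑ j, ∑ p : Finset (Fin n) × Finset (Fin n),
      (if mn p.1 p.2 then cc k (Ω i j) * cc k (ψ i p.1) * cc k (ψ j p.2) * Zq q a x M p.1 p.2
        else 0) = 0 := by
    rw [sum_congr rfl fun i _ => sum_congr rfl fun j _ => e1 i j, ← Fintype.sum_prod_type
      (f := fun ij : Fin b × Fin b => cc k (Ω ij.1 ij.2) * HF a (f ij.1) (f ij.2))]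
    refine Finset.sum_involution (fun p _ => p.swap) ?_ ?_ ?_ ?_
    · rintro ⟨i, j⟩ _
      simp only [Prod.swap_prod_mk]
      rw [hrk.1 j i, ← mul_add, HF_add h2k a (f i) (f j) (hf i ∅ (by rw [card_empty]; omega)),
        top_zero2 0 a (f i) (f j) q (hf i) (hf j) (hM i) (hM j), mul_zero]
    · rintro ⟨i, j⟩ _ hne hs
      have hij : j = i := congrArg Prod.fst hs
      apply hne
      simp only [hij]
      rw [HF_self h2k 0 a (f i) (fun σ hσ => hf i σ (by omega)), half_sq 0 a (f i) q (hf i) (hM i),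
        mul_zero]
    · intro p _; exact mem_univ _
    · intro p _; exact Prod.swap_swap p
  rw [e2] at e0
  have alg : ∀ (D : ℕ) (_ : D = 2 * q) (a : Fin D → Fin n → k),
      (∀ i : Fin D, ∑ v, a i v • x v = 0) →
      ∑ U ∈ powersetCard D univ,
          bra a U * M (∏ v ∈ evenPart U, x v) * M (∏ v ∈ oddPart U, x v)
        = ∑ h ∈ (univ : Finset (Fin D → Fin n)).filter EvenFun,
            (∏ i, a i (h i)) * M (halfMon x h) ^ 2 := by
    intro D hD
    subst hD
    intro a ha
    exact Pool.Agent.W555.KS.halg' k R n q a x M fun i _ => ha i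
  rw [← hq] at e0
  rw [← alg (d + 1) hq a ha, ← e0]
  refine sum_congr rfl fun U hU => ?_
  rw [mem_powersetCard] at hU
  unfold Zq
  rw [if_pos ⟨even_odd_disj U, by rw [W349.KS.card_evenPart, hU.2]; omega,
    by rw [W349.KS.card_oddPart, hU.2]; omega⟩, even_odd_union]

end core

section

variable {k R : Type} [Field k] [CommRing R] [Algebra k R] {d : ℕ}

/-- the linear conditions -/
noncomputable def PsiF (q b : ℕ) (a : Fin (d + 1) → Fin n → k) (x : Fin n → R)
    (u : Fin b → Finset (Fin n) → k) :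
    (R →ₗ[k] k) →ₗ[k] (Fin b × {I : Finset (Fin (d + 1)) //
      I ∈ powersetCard q (univ.erase (0 : Fin (d + 1)))} → k) where
  toFun M ji := coeff (sq ji.2.1) (GF a (fM q x (u ji.1) M))
  map_add' M M' := by
    funext ji
    simp only [Pi.add_apply, coeff_GF, fM_add, add_mul, sum_add_distrib]
  map_smul' c M := by
    funext ji
    simp only [Pi.smul_apply, coeff_GF, fM_smul, smul_eq_mul, mul_sum, RingHom.id_apply, mul_assoc]

lemma coreF2 [CharP k 2] {q : ℕ} (hq2 : 2 ≤ q) (hq : d + 1 = 2 * q)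
    {L : Finset (Finset (Fin n))}
    (a : Fin (d + 1) → Fin n → k) (x : Fin n → R) (M : R →ₗ[k] k)
    (hface : ∀ σ, σ ∉ L → ∏ v ∈ σ, x v = 0) (ha : ∀ i, ∑ v, a i v • x v = 0)
    {b : ℕ} {Ω : Fin b → Fin b → ZMod 2} {ψ : Fin b → Finset (Fin n) → ZMod 2}
    (hrk : IsForm L q Ω ψ)
    (hM : PsiF q b a x (fun j σ => cc k (ψ j σ)) M = 0) :
    ∑ h ∈ (univ : Finset (Fin (d + 1) → Fin n)).filter EvenFun,
      (∏ i, a i (h i)) * M (halfMon x h) ^ 2 = 0 :=
  coreF hq2 hq a x M hface ha hrk (fun j I hI hI0 => congrFun hM (j, ⟨I, by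
    rw [mem_powersetCard]
    refine ⟨fun i hi => mem_erase.2 ⟨?_, mem_univ _⟩, hI⟩
    rintro rfl
    exact hI0 hi⟩))

end

section

variable {k : Type} [Field k] {d q : ℕ}

lemma ker_PsiF [CharP k 2] (hq2 : 2 ≤ q) (hq : d + 1 = 2 * q) (L : Finset (Finset (Fin n))) {b : ℕ}
    {Ω : Fin b → Fin b → ZMod 2} {ψ : Fin b → Finset (Fin n) → ZMod 2} (hrk : IsForm L q Ω ψ)
    (a : Fin (d + 1) → Fin n → k) (hind : Ind2 a) (I : Ideal (MvPolynomial (Fin n) k))
    (hI1 : srI k L ≤ I) (hI2 : ∀ i, lf (a i) ∈ I)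
    (M : (MvPolynomial (Fin n) k ⧸ I) →ₗ[k] k)
    (hM : PsiF q b a (fun v => Ideal.Quotient.mk I (X v)) (fun j σ => cc k (ψ j σ)) M = 0)
    (β : Fin n →₀ ℕ) (hβ : β.degree = q) :
    M (Ideal.Quotient.mk I (monomial β 1)) = 0 := by
  obtain ⟨h, hf⟩ := exists_fib (m := d + 1) hq (fun v => β v)
    (by rw [← hβ, Finsupp.degree_eq_sum])
  have hev : EvenFun h := fun v => by rw [hf]; exact even_two_mul _
  have key := coreF2 hq2 hq (L := L) a (fun v => Ideal.Quotient.mk I (X v)) M
    (fun σ hσ => by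
      rw [← map_prod, Ideal.Quotient.eq_zero_iff_mem]
      exact hI1 (Ideal.subset_span ⟨σ, hσ, rfl⟩))
    (fun i => by
      rw [mk_lf', Ideal.Quotient.eq_zero_iff_mem]
      exact hI2 i) hrk hM
  have h2 := hind (fun h => M (halfMon (fun v => Ideal.Quotient.mk I (X v)) h)) key h
    (mem_filter.2 ⟨mem_univ _, hev⟩)
  rw [← mk_mon' _ h β hf]
  exact h2

/-- few monomials span the quotient -/
theorem fewF_gen [CharP k 2] (hq2 : 2 ≤ q) (hq : d + 1 = 2 * q) (L : Finset (Finset (Fin n)))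
    {b : ℕ} {Ω : Fin b → Fin b → ZMod 2} {ψ : Fin b → Finset (Fin n) → ZMod 2}
    (hrk : IsForm L q Ω ψ)
    (a : Fin (d + 1) → Fin n → k) (hind : Ind2 a) (I : Ideal (MvPolynomial (Fin n) k))
    (hI1 : srI k L ≤ I) (hI2 : ∀ i, lf (a i) ∈ I) :
    ∃ s : Finset (Fin n →₀ ℕ), s.card ≤ d.choose q * b ∧ (∀ β ∈ s, β.degree = q) ∧
      ∀ p : MvPolynomial (Fin n) k, p.IsHomogeneous q →
        p ∈ I ⊔ Ideal.span ((fun m => monomial m (1 : k)) '' (s : Set (Fin n →₀ ℕ))) := by
  classical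
  have hfin : Finite {β : Fin n →₀ ℕ // β.degree = q} := (Finsupp.finite_of_degree_eq q).to_subtype
  let vv : {β : Fin n →₀ ℕ // β.degree = q} → (MvPolynomial (Fin n) k ⧸ I) :=
    fun β => Ideal.Quotient.mk I (monomial β.1 1)
  obtain ⟨B, hb1, hb2, hb3⟩ := exists_linearIndependent k (Set.range vv)
  have hbf : B.Finite := (Set.finite_range vv).subset hb1
  let _ : Fintype B := hbf.fintype
  have hc : ∀ y : B, ∃ β : {β : Fin n →₀ ℕ // β.degree = q}, vv β = y.1 := fun y => hb1 y.2
  choose c hc using hc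
  have hcard : Fintype.card B ≤ d.choose q * b := by
    have h1 := card_le (fun y : B => y.1) hb3
      (PsiF q b a (fun v => Ideal.Quotient.mk I (X v)) (fun j σ => cc k (ψ j σ))) (fun M hM y => by
          rw [← hc y]
          exact ker_PsiF hq2 hq L hrk a hind I hI1 hI2 M hM _ (c y).2)
    refine h1.trans ?_
    rw [Fintype.card_prod, Fintype.card_fin, Fintype.card_coe, card_powersetCard,
      card_erase_of_mem (mem_univ _), card_univ, Fintype.card_fin, Nat.add_sub_cancel, mul_comm]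
  refine ⟨univ.image fun y : B => (c y).1, ?_, ?_, ?_⟩
  · exact card_image_le.trans hcard
  · intro β hβ
    obtain ⟨y, _, rfl⟩ := mem_image.1 hβ
    exact (c y).2
  · intro p hp
    have h1 : Ideal.Quotient.mk I p ∈ Submodule.span k B := by
      rw [hb2]
      refine mem_of_monomials ((Submodule.span k (Set.range vv)).comap
        (Ideal.Quotient.mkₐ k I).toLinearMap) ?_ hp
      intro β hβ
      exact Submodule.subset_span ⟨⟨β, hβ⟩, rfl⟩
    have h2 : (B : Set (MvPolynomial (Fin n) k ⧸ I)) = Set.range (fun y : B => y.1) := by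
      rw [Subtype.range_coe]
    rw [h2, Submodule.mem_span_range_iff_exists_fun] at h1
    obtain ⟨e, he⟩ := h1
    have h3 : p - ∑ y : B, C (e y) * monomial (c y).1 1 ∈ I := by
      rw [← Ideal.Quotient.eq_zero_iff_mem, map_sub, sub_eq_zero, map_sum, ← he]
      refine sum_congr rfl fun y _ => ?_
      conv_lhs => rw [← hc y]
      rw [← smul_eq_C_mul]
      rfl
    have h4 : p = (p - ∑ y : B, C (e y) * monomial (c y).1 1) +
        ∑ y : B, C (e y) * monomial (c y).1 1 := by ring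
    rw [h4]
    refine Ideal.add_mem _ (Ideal.mem_sup_left h3) (Ideal.mem_sup_right ?_)
    refine Ideal.sum_mem _ fun y _ => Ideal.mul_mem_left _ _ (Ideal.subset_span ?_)
    refine ⟨(c y).1, ?_, rfl⟩
    rw [mem_coe, mem_image]
    exact ⟨y, mem_univ _, rfl⟩

theorem fewF (hq2 : 2 ≤ q) (hq : d + 1 = 2 * q) (L : Finset (Finset (Fin n))) {b : ℕ}
    {Ω : Fin b → Fin b → ZMod 2} {ψ : Fin b → Finset (Fin n) → ZMod 2} (hrk : IsForm L q Ω ψ) :
    ∃ s : Finset (Fin n →₀ ℕ), s.card ≤ d.choose q * b ∧ (∀ β ∈ s, β.degree = q) ∧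
      ∀ p : MvPolynomial (Fin n) (Kf (d + 1) n), p.IsHomogeneous q →
        p ∈ srI (Kf (d + 1) n) L ⊔
          Ideal.span (Set.range (fun i : Fin d => lf (gen (d + 1) n i.castSucc))) ⊔
          Ideal.span {lf (gen (d + 1) n (Fin.last d)) ^ (2 * q - d)} ⊔
          Ideal.span ((fun m => monomial m (1 : Kf (d + 1) n)) '' (s : Set (Fin n →₀ ℕ))) := by
  refine fewF_gen hq2 hq L hrk (gen (d + 1) n) (ind2_gen n d) _ ?_ ?_
  · exact le_sup_left.trans le_sup_left
  · intro i
    induction i using Fin.lastCases with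
    | last =>
      refine Ideal.mem_sup_right (Ideal.subset_span ?_)
      rw [show 2 * q - d = 1 by omega, pow_one]
      rfl
    | cast i => exact Ideal.mem_sup_left (Ideal.mem_sup_right (Ideal.subset_span ⟨i, rfl⟩))

end

end Pool.Agent.H67.KS
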