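import Pool.Agent.H67.KS.Lap

/-!
# The obstruction of rank at most `g`: the dimension bound for generic forms in characteristic two
-/

set_option autoImplicit false

namespace Pool.Agent.H67.KS

open Finset MvPolynomial Pool.Agent.W555.KS Pool.Agent.W500.KS Pool.Agent.W646.KS
  Pool.Agent.W977.KS

variable {n : ℕ}

/-- symmetric cycles on the pairs of disjoint faces with `q` vertices -/
def MidCyc {k : Type*} [AddCommMonoid k] (L : Finset (Finset (Fin n))) (q : ℕ)
    (Z : Finset (Fin n) → Finset (Fin n) → k) : Prop :=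
  (∀ σ τ, Z σ τ = Z τ σ) ∧
  (∀ σ τ, Z σ τ ≠ 0 → σ ∈ L ∧ τ ∈ L ∧ σ.card = q ∧ τ.card = q ∧ Disjoint σ τ) ∧
  ∀ ρ τ : Finset (Fin n), ρ.card + 1 = q → τ.card = q → Disjoint ρ τ →
    ∑ v ∈ (ρ ∪ τ)ᶜ, Z (insert v ρ) τ = 0

/-- the obstruction is given by `u`, `w` -/
def IsRk {g : ℕ} (L : Finset (Finset (Fin n))) (q : ℕ) (u w : Fin g → Finset (Fin n) → ZMod 2) :
    Prop :=
  ∀ Z : Finset (Fin n) → Finset (Fin n) → ZMod 2, MidCyc L q Z →
    ∑ U ∈ powersetCard (2 * q) univ, Z (evenPart U) (oddPart U) =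
      ∑ j, ∑ p : Finset (Fin n) × Finset (Fin n), u j p.1 * w j p.2 * Z p.1 p.2

/-- the map from `ZMod 2` -/
noncomputable abbrev cc (k : Type*) [Field k] [CharP k 2] : ZMod 2 →+* k :=
  ZMod.castHom (dvd_refl 2) k

lemma rk_field {L : Finset (Finset (Fin n))} {q g : ℕ} {u w : Fin g → Finset (Fin n) → ZMod 2}
    (h : IsRk L q u w) (k : Type) [Field k] [CharP k 2] (Z : Finset (Fin n) → Finset (Fin n) → k)
    (hZ : MidCyc L q Z) :
    ∑ U ∈ powersetCard (2 * q) univ, Z (evenPart U) (oddPart U) =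
      ∑ j, ∑ p : Finset (Fin n) × Finset (Fin n), cc k (u j p.1) * cc k (w j p.2) * Z p.1 p.2 := by
  let _ : Algebra (ZMod 2) k := ZMod.algebra k 2
  rw [← sub_eq_zero, ← Module.forall_dual_apply_eq_zero_iff (ZMod 2)]
  intro φ
  have key : ∀ (a b : ZMod 2) (z : k), φ (cc k a * cc k b * z) = a * b * φ z := by
    intro a b z
    have h1 : cc k a * cc k b * z = (a * b) • z := by
      rw [Algebra.smul_def, ← map_mul]
      congr 1
    rw [h1, map_smul, smul_eq_mul]
  have h2 := h (fun σ τ => φ (Z σ τ)) ⟨fun σ τ => congrArg φ (hZ.1 σ τ), ?_, ?_⟩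
  · rw [map_sub, map_sum, map_sum, sub_eq_zero, h2]
    refine sum_congr rfl fun j _ => ?_
    rw [map_sum]
    exact sum_congr rfl fun p _ => (key _ _ _).symm
  · intro σ τ h'
    refine hZ.2.1 σ τ ?_
    intro h''
    apply h'
    show φ (Z σ τ) = 0
    rw [h'', map_zero]
  · intro ρ τ h1 h3 h4
    have := congrArg φ (hZ.2.2 ρ τ h1 h3 h4)
    rwa [map_sum, map_zero] at this

section core

variable {k R : Type} [Field k] [CharP k 2] [CommRing R] [Algebra k R] {d q : ℕ}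

/-- the values of the functional, weighted -/
noncomputable def fM (q : ℕ) (x : Fin n → R) (u : Finset (Fin n) → k) (M : R →ₗ[k] k)
    (σ : Finset (Fin n)) : k :=
  if σ.card = q then u σ * M (∏ v ∈ σ, x v) else 0

/-- the cycle -/
noncomputable def Zq (q : ℕ) (a : Fin (d + 1) → Fin n → k) (x : Fin n → R) (M : R →ₗ[k] k)
    (σ τ : Finset (Fin n)) : k :=
  if Disjoint σ τ ∧ σ.card = q ∧ τ.card = q then
    bra a (σ ∪ τ) * M (∏ v ∈ σ, x v) * M (∏ v ∈ τ, x v) else 0

lemma Zq_cyc (hq : d + 1 = 2 * q) {L : Finset (Finset (Fin n))}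
    (a : Fin (d + 1) → Fin n → k) (x : Fin n → R) (M : R →ₗ[k] k)
    (hface : ∀ σ, σ ∉ L → ∏ v ∈ σ, x v = 0) (ha : ∀ i, ∑ v, a i v • x v = 0) :
    MidCyc L q (Zq q a x M) := by
  refine ⟨?_, ?_, ?_⟩
  · intro σ τ
    unfold Zq
    by_cases h : Disjoint σ τ ∧ σ.card = q ∧ τ.card = q
    · rw [if_pos h, if_pos ⟨h.1.symm, h.2.2, h.2.1⟩, union_comm]
      ring
    · rw [if_neg h, if_neg]
      rintro ⟨h1, h2, h3⟩
      exact h ⟨h1.symm, h3, h2⟩
  · intro σ τ hne
    unfold Zq at hne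
    split_ifs at hne with hc
    · refine ⟨?_, ?_, hc.2.1, hc.2.2, hc.1⟩
      · by_contra hσ
        apply hne
        rw [hface σ hσ]
        simp
      · by_contra hτ
        apply hne
        rw [hface τ hτ]
        simp
    · exact absurd rfl hne
  · intro ρ τ h1 h2 hd
    have hWc : (ρ ∪ τ).card = d := by rw [card_union_of_disjoint hd]; omega
    have hrow : ∀ i : Fin (d + 1), ∑ v, a i v * M (x v * ∏ w ∈ ρ, x w) = 0 := by
      intro i
      have e : ∑ v, a i v * M (x v * ∏ w ∈ ρ, x w) = M ((∑ v, a i v • x v) * ∏ w ∈ ρ, x w) := by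
        rw [sum_mul, map_sum]
        refine sum_congr rfl fun v _ => ?_
        rw [smul_mul_assoc, map_smul, smul_eq_mul]
      rw [e, ha i, zero_mul, map_zero]
    have he := Pool.Agent.W837.KS.exp k n d a (fun v => M (x v * ∏ w ∈ ρ, x w)) (ρ ∪ τ) hWc
      (fun i => hrow _)
    rw [hrow, zero_mul] at he
    have h3 : ∀ v ∈ (ρ ∪ τ)ᶜ, Zq q a x M (insert v ρ) τ =
        M (∏ w ∈ τ, x w) * (M (x v * ∏ w ∈ ρ, x w) * bra a (insert v (ρ ∪ τ))) := by
      intro v hv
      rw [mem_compl, mem_union, not_or] at hv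
      unfold Zq
      rw [if_pos ⟨disjoint_insert_left.2 ⟨hv.2, hd⟩, by rw [card_insert_of_notMem hv.1]; omega, h2⟩,
        prod_insert hv.1, insert_union]
      ring
    rw [sum_congr rfl h3, ← mul_sum, he, mul_zero]

lemma core (hq : d + 1 = 2 * q) {L : Finset (Finset (Fin n))}
    (a : Fin (d + 1) → Fin n → k) (x : Fin n → R) (M : R →ₗ[k] k)
    (hface : ∀ σ, σ ∉ L → ∏ v ∈ σ, x v = 0) (ha : ∀ i, ∑ v, a i v • x v = 0)
    {g : ℕ} {u w : Fin g → Finset (Fin n) → ZMod 2} (hrk : IsRk L q u w)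
    (hM : ∀ j, ∀ I : Finset (Fin (d + 1)), I.card = q →
      coeff (sq I) (GF a (fM q x (fun σ => cc k (u j σ)) M)) = 0) :
    ∑ h ∈ (univ : Finset (Fin (d + 1) → Fin n)).filter EvenFun,
      (∏ i, a i (h i)) * M (halfMon x h) ^ 2 = 0 := by
  classical
  have h2k : (2 : k) = 0 := CharP.cast_eq_zero k 2
  have e0 := rk_field hrk k (Zq q a x M) (Zq_cyc hq a x M hface ha)
  have e1 : ∀ j, ∑ p : Finset (Fin n) × Finset (Fin n),
      cc k (u j p.1) * cc k (w j p.2) * Zq q a x M p.1 p.2 = 0 := by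
    intro j
    have h1 := top_zero a (fM q x (fun σ => cc k (u j σ)) M) (fM q x (fun σ => cc k (w j σ)) M) q
      (fun σ hσ => by unfold fM; rw [if_neg hσ]) (hM j)
    rw [coeff_GF_mul h2k] at h1
    rw [← h1]
    refine sum_congr rfl fun p _ => ?_
    unfold Zq fM
    by_cases c1 : Disjoint p.1 p.2
    · by_cases c2 : p.1.card = q
      · by_cases c3 : p.2.card = q
        · rw [if_pos ⟨c1, c2, c3⟩, if_pos c1, if_pos c2, if_pos c3]
          ring
        · rw [if_neg (fun h => c3 h.2.2), if_pos c1, if_neg c3]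
          ring
      · rw [if_neg (fun h => c2 h.2.1), if_pos c1, if_neg c2]
        ring
    · rw [if_neg (fun h => c1 h.1), if_neg c1, mul_zero]
  rw [sum_eq_zero fun j _ => e1 j] at e0
  have alg : ∀ (D : ℕ) (_ : D = 2 * q) (a : Fin D → Fin n → k),
      (∀ i : Fin D, ∑ v, a i v • x v = 0) →
      ∑ U ∈ powersetCard D univ,
          bra a U * M (∏ v ∈ evenPart U, x v) * M (∏ v ∈ oddPart U, x v)
        = ∑ h ∈ (univ : Finset (Fin D → Fin n)).filter EvenFun,
            (∏ i, a i (h i)) * M (halfMon x h) ^ 2 := by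
    intro D hD
    subst hD
    intro a ha
    exact Pool.Agent.W555.KS.halg' k R n q a x M fun i _ => ha i
  rw [← hq] at e0
  rw [← alg (d + 1) hq a ha, ← e0]
  refine sum_congr rfl fun U hU => ?_
  rw [mem_powersetCard] at hU
  unfold Zq
  rw [if_pos ⟨even_odd_disj U, by rw [W349.KS.card_evenPart, hU.2]; omega,
    by rw [W349.KS.card_oddPart, hU.2]; omega⟩, even_odd_union]

end core

end Pool.Agent.H67.KS
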