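import Pool.Agent.H67.KS.Cor

/-!
# The dimension bound over the generic field
-/

set_option autoImplicit false

namespace Pool.Agent.H67.KS

open Finset MvPolynomial Pool.Agent.W555.KS Pool.Agent.W500.KS Pool.Agent.W646.KS
  Pool.Agent.W977.KS

variable {n : ℕ}

section

variable {k R : Type} [Field k] [CommRing R] [Algebra k R] {m : ℕ}

lemma coeff_GF (a : Fin m → Fin n → k) (f : Finset (Fin n) → k) (p : Fin m →₀ ℕ) :
    coeff p (GF a f) = ∑ σ : Finset (Fin n), f σ * coeff p (∏ v ∈ σ, lin a v) := by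
  unfold GF
  rw [coeff_sum]
  exact sum_congr rfl fun σ _ => coeff_C_mul _ _ _

lemma fM_add (q : ℕ) (x : Fin n → R) (u : Finset (Fin n) → k) (M M' : R →ₗ[k] k)
    (σ : Finset (Fin n)) : fM q x u (M + M') σ = fM q x u M σ + fM q x u M' σ := by
  unfold fM
  split_ifs
  · rw [LinearMap.add_apply, mul_add]
  · rw [add_zero]

lemma fM_smul (q : ℕ) (x : Fin n → R) (u : Finset (Fin n) → k) (c : k) (M : R →ₗ[k] k)
    (σ : Finset (Fin n)) : fM q x u (c • M) σ = c * fM q x u M σ := by
  unfold fM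
  split_ifs
  · rw [LinearMap.smul_apply, smul_eq_mul]; ring
  · rw [mul_zero]

/-- the linear conditions -/
noncomputable def Psi (q g : ℕ) (a : Fin m → Fin n → k) (x : Fin n → R)
    (u : Fin g → Finset (Fin n) → k) :
    (R →ₗ[k] k) →ₗ[k] (Fin g × {I : Finset (Fin m) // I.card = q} → k) where
  toFun M ji := coeff (sq ji.2.1) (GF a (fM q x (u ji.1) M))
  map_add' M M' := by
    funext ji
    simp only [Pi.add_apply, coeff_GF, fM_add, add_mul, sum_add_distrib]
  map_smul' c M := by
    funext ji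
    simp only [Pi.smul_apply, coeff_GF, fM_smul, smul_eq_mul, mul_sum, RingHom.id_apply, mul_assoc]

lemma core2 [CharP k 2] {d : ℕ} {q : ℕ} (hq : d + 1 = 2 * q) {L : Finset (Finset (Fin n))}
    (a : Fin (d + 1) → Fin n → k) (x : Fin n → R) (M : R →ₗ[k] k)
    (hface : ∀ σ, σ ∉ L → ∏ v ∈ σ, x v = 0) (ha : ∀ i, ∑ v, a i v • x v = 0)
    {g : ℕ} {u w : Fin g → Finset (Fin n) → ZMod 2} (hrk : IsRk L q u w)
    (hM : Psi q g a x (fun j σ => cc k (u j σ)) M = 0) :
    ∑ h ∈ (univ : Finset (Fin (d + 1) → Fin n)).filter EvenFun,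
      (∏ i, a i (h i)) * M (halfMon x h) ^ 2 = 0 :=
  core hq a x M hface ha hrk (fun j I hI => congrFun hM (j, ⟨I, hI⟩))

/-- functionals with prescribed values on a linearly independent family -/
lemma exists_ext {V ι : Type} [AddCommGroup V] [Module k V] [Fintype ι] (b : ι → V)
    (hb : LinearIndependent k b) (c : ι → k) : ∃ M : V →ₗ[k] k, ∀ i, M (b i) = c i := by
  classical
  obtain ⟨M, hM⟩ := LinearMap.exists_extend ((Finsupp.linearCombination k c) ∘ₗ hb.repr)
  refine ⟨M, fun i => ?_⟩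
  have h1 := LinearMap.congr_fun hM ⟨b i, Submodule.subset_span ⟨i, rfl⟩⟩
  rw [LinearMap.comp_apply, Submodule.subtype_apply] at h1
  rw [h1, LinearMap.comp_apply, hb.repr_eq_single i _ rfl,
    Finsupp.linearCombination_single, one_smul]

/-- if the common kernel of `N` linear conditions on functionals annihilates the independent vectors,
there are at most `N` of them -/
lemma card_le {V ι κ : Type} [AddCommGroup V] [Module k V] [Fintype ι] [Fintype κ] (b : ι → V)
    (hb : LinearIndependent k b) (Ψ : (V →ₗ[k] k) →ₗ[k] (κ → k))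
    (h : ∀ M, Ψ M = 0 → ∀ i, M (b i) = 0) : Fintype.card ι ≤ Fintype.card κ := by
  classical
  let r : (V →ₗ[k] k) →ₗ[k] (ι → k) := LinearMap.pi fun i => LinearMap.applyₗ (b i)
  have hr : Function.Surjective r := by
    intro c
    obtain ⟨M, hM⟩ := exists_ext b hb c
    exact ⟨M, funext hM⟩
  obtain ⟨e, he⟩ := r.exists_rightInverse_of_surjective (LinearMap.range_eq_top.2 hr)
  have hinj : Function.Injective (Ψ.comp e) := by
    rw [← LinearMap.ker_eq_bot, LinearMap.ker_eq_bot']
    intro c hc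
    have h1 := h (e c) hc
    have h2 : r (e c) = c := LinearMap.congr_fun he c
    rw [← h2]
    funext i
    exact h1 i
  have h3 := LinearMap.finrank_le_finrank_of_injective hinj
  rwa [Module.finrank_fintype_fun_eq_card, Module.finrank_fintype_fun_eq_card] at h3

end

section

variable {k : Type} [Field k] {d q : ℕ}

lemma mk_lf' (I : Ideal (MvPolynomial (Fin n) k)) (c : Fin n → k) :
    ∑ v, c v • Ideal.Quotient.mk I (X v) = Ideal.Quotient.mk I (lf c) := by
  unfold lf
  rw [map_sum]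
  refine sum_congr rfl fun v _ => ?_
  have h1 : c v • Ideal.Quotient.mk I (X v) = Ideal.Quotient.mk I (c v • X v) := rfl
  rw [h1, smul_eq_C_mul]

lemma mk_mon' (I : Ideal (MvPolynomial (Fin n) k)) {m : ℕ} (h : Fin m → Fin n) (β : Fin n →₀ ℕ)
    (hf : ∀ v, fib h v = 2 * β v) :
    halfMon (fun v => Ideal.Quotient.mk I (X v)) h = Ideal.Quotient.mk I (monomial β 1) := by
  unfold halfMon
  rw [monomial_eq, C_1, one_mul, Finsupp.prod_fintype _ _ (fun i => pow_zero _), map_prod]
  refine prod_congr rfl fun v _ => ?_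
  rw [hf, map_pow]
  congr 1
  omega

/-- the squares of the entries are independent in this sense -/
def Ind2 (a : Fin (d + 1) → Fin n → k) : Prop :=
  ∀ c : (Fin (d + 1) → Fin n) → k,
    ∑ h ∈ (univ : Finset (Fin (d + 1) → Fin n)).filter EvenFun, (∏ i, a i (h i)) * c h ^ 2 = 0 →
    ∀ h ∈ (univ : Finset (Fin (d + 1) → Fin n)).filter EvenFun, c h = 0

lemma ker_Psi [CharP k 2] (hq : d + 1 = 2 * q) (L : Finset (Finset (Fin n))) {g : ℕ}
    {u w : Fin g → Finset (Fin n) → ZMod 2} (hrk : IsRk L q u w)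
    (a : Fin (d + 1) → Fin n → k) (hind : Ind2 a) (I : Ideal (MvPolynomial (Fin n) k))
    (hI1 : srI k L ≤ I) (hI2 : ∀ i, lf (a i) ∈ I)
    (M : (MvPolynomial (Fin n) k ⧸ I) →ₗ[k] k)
    (hM : Psi q g a (fun v => Ideal.Quotient.mk I (X v)) (fun j σ => cc k (u j σ)) M = 0)
    (β : Fin n →₀ ℕ) (hβ : β.degree = q) :
    M (Ideal.Quotient.mk I (monomial β 1)) = 0 := by
  obtain ⟨h, hf⟩ := exists_fib (m := d + 1) hq (fun v => β v)
    (by rw [← hβ, Finsupp.degree_eq_sum])
  have hev : EvenFun h := fun v => by rw [hf]; exact even_two_mul _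
  have key := core2 hq (L := L) a (fun v => Ideal.Quotient.mk I (X v)) M
    (fun σ hσ => by
      rw [← map_prod, Ideal.Quotient.eq_zero_iff_mem]
      exact hI1 (Ideal.subset_span ⟨σ, hσ, rfl⟩))
    (fun i => by
      rw [mk_lf', Ideal.Quotient.eq_zero_iff_mem]
      exact hI2 i) hrk hM
  have h2 := hind (fun h => M (halfMon (fun v => Ideal.Quotient.mk I (X v)) h)) key h
    (mem_filter.2 ⟨mem_univ _, hev⟩)
  rw [← mk_mon' _ h β hf]
  exact h2

/-- few monomials span the quotient -/
theorem few_gen [CharP k 2] (hq : d + 1 = 2 * q) (L : Finset (Finset (Fin n))) {g : ℕ}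
    {u w : Fin g → Finset (Fin n) → ZMod 2} (hrk : IsRk L q u w)
    (a : Fin (d + 1) → Fin n → k) (hind : Ind2 a) (I : Ideal (MvPolynomial (Fin n) k))
    (hI1 : srI k L ≤ I) (hI2 : ∀ i, lf (a i) ∈ I) :
    ∃ s : Finset (Fin n →₀ ℕ), s.card ≤ g * (2 * q).choose q ∧ (∀ β ∈ s, β.degree = q) ∧
      ∀ p : MvPolynomial (Fin n) k, p.IsHomogeneous q →
        ∃ c : (Fin n →₀ ℕ) → k, p - ∑ β ∈ s, monomial β (c β) ∈ I := by
  classical
  have hfin : Finite {β : Fin n →₀ ℕ // β.degree = q} := (Finsupp.finite_of_degree_eq q).to_subtype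
  let vv : {β : Fin n →₀ ℕ // β.degree = q} → (MvPolynomial (Fin n) k ⧸ I) :=
    fun β => Ideal.Quotient.mk I (monomial β.1 1)
  obtain ⟨b, hb1, hb2, hb3⟩ := exists_linearIndependent k (Set.range vv)
  have hbf : b.Finite := (Set.finite_range vv).subset hb1
  let _ : Fintype b := hbf.fintype
  have hc : ∀ y : b, ∃ β : {β : Fin n →₀ ℕ // β.degree = q}, vv β = y.1 := fun y => hb1 y.2
  choose c hc using hc
  have hcinj : Function.Injective c := by
    intro y y' h
    apply Subtype.ext
    rw [← hc y, ← hc y', h]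
  have hcard : Fintype.card b ≤ g * (2 * q).choose q := by
    have h1 := card_le (fun y : b => y.1) hb3
      (Psi q g a (fun v => Ideal.Quotient.mk I (X v)) (fun j σ => cc k (u j σ))) (fun M hM y => by
          rw [← hc y]
          exact ker_Psi hq L hrk a hind I hI1 hI2 M hM _ (c y).2)
    refine h1.trans ?_
    rw [Fintype.card_prod, Fintype.card_fin, Fintype.card_finset_len, Fintype.card_fin, hq]
  refine ⟨univ.image fun y : b => (c y).1, ?_, ?_, ?_⟩
  · exact card_image_le.trans hcard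
  · intro β hβ
    obtain ⟨y, _, rfl⟩ := mem_image.1 hβ
    exact (c y).2
  · intro p hp
    have h1 : Ideal.Quotient.mk I p ∈ Submodule.span k b := by
      rw [hb2]
      refine mem_of_monomials ((Submodule.span k (Set.range vv)).comap
        (Ideal.Quotient.mkₐ k I).toLinearMap) ?_ hp
      intro β hβ
      exact Submodule.subset_span ⟨⟨β, hβ⟩, rfl⟩
    have h2 : (b : Set (MvPolynomial (Fin n) k ⧸ I)) = Set.range (fun y : b => y.1) := by
      rw [Subtype.range_coe]
    rw [h2, Submodule.mem_span_range_iff_exists_fun] at h1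
    obtain ⟨e, he⟩ := h1
    refine ⟨fun β => if h : ∃ y : b, (c y).1 = β then e h.choose else 0, ?_⟩
    rw [← Ideal.Quotient.eq_zero_iff_mem, map_sub, sub_eq_zero, map_sum, ← he,
      sum_image (fun y _ y' _ h => hcinj (Subtype.ext h))]
    refine sum_congr rfl fun y _ => ?_
    have h3 : ∃ y' : b, (c y').1 = (c y).1 := ⟨y, rfl⟩
    have h4 : h3.choose = y := hcinj (Subtype.ext h3.choose_spec)
    show e y • y.1 = Ideal.Quotient.mk I (monomial (c y).1
      (if h : ∃ y' : b, (c y').1 = (c y).1 then e h.choose else 0))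
    rw [dif_pos h3, h4]
    conv_lhs => rw [← hc y]
    have h5 : (monomial (c y).1 (e y) : MvPolynomial (Fin n) k) = e y • monomial (c y).1 1 := by
      rw [smul_monomial, smul_eq_mul, mul_one]
    rw [h5]
    rfl

lemma ind2_gen (n d : ℕ) : Ind2 (gen (d + 1) n) := by
  intro c hc
  exact indep Pool.Agent.W646.KS.ind (fun i : Fin (d + 1) => i) (fun _ _ h => h) _ c hc

/-- the ideal -/
noncomputable abbrev IK (n d q : ℕ) (L : Finset (Finset (Fin n))) :
    Ideal (MvPolynomial (Fin n) (Kf (d + 1) n)) :=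
  Jd n d L ⊔ Ideal.span {wl n d ^ (2 * q - d)}

theorem few (hq : d + 1 = 2 * q) (L : Finset (Finset (Fin n))) {g : ℕ}
    {u w : Fin g → Finset (Fin n) → ZMod 2} (hrk : IsRk L q u w) :
    ∃ s : Finset (Fin n →₀ ℕ), s.card ≤ g * (2 * q).choose q ∧ (∀ β ∈ s, β.degree = q) ∧
      ∀ p : MvPolynomial (Fin n) (Kf (d + 1) n), p.IsHomogeneous q →
        ∃ c : (Fin n →₀ ℕ) → Kf (d + 1) n, p - ∑ β ∈ s, monomial β (c β) ∈ IK n d q L := by
  refine few_gen hq L hrk (gen (d + 1) n) (ind2_gen n d) (IK n d q L) ?_ ?_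
  · exact le_sup_left.trans le_sup_left
  · intro i
    induction i using Fin.lastCases with
    | last =>
      refine Ideal.mem_sup_right (Ideal.subset_span ?_)
      rw [show 2 * q - d = 1 by omega, pow_one]
      rfl
    | cast i => exact Ideal.mem_sup_left (Ideal.mem_sup_right (Ideal.subset_span ⟨i, rfl⟩))

end

end Pool.Agent.H67.KS
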