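import Pool.Agent.H67.KS.Dim

/-!
# From the generic matrix in characteristic two to generic matrices over other fields
-/

set_option autoImplicit false

namespace Pool.Agent.H67.KS

open Finset MvPolynomial Pool.Agent.W555.KS Pool.Agent.W386.KS Pool.Agent.W472.KS

variable {n d q : ℕ}

theorem spec_rk (L : Finset (Finset (Fin n))) (s : Finset (Fin n →₀ ℕ))
    (hs : ∀ β ∈ s, β.degree = q)
    (hfew : ∀ p : MvPolynomial (Fin n) (Kf (d + 1) n), p.IsHomogeneous q →
      ∃ c : (Fin n →₀ ℕ) → Kf (d + 1) n, p - ∑ β ∈ s, monomial β (c β) ∈ IK n d q L) :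
    ∃ F : MvPolynomial (Fin (d + 1) × Fin n) ℤ,
      MvPolynomial.map (Int.castRingHom (ZMod 2)) F ≠ 0 ∧
      ∀ (k : Type) [Field k] (c : Fin (d + 1) × Fin n → k), aeval c F ≠ 0 →
        ∀ p : MvPolynomial (Fin n) k, p.IsHomogeneous q → ∃ e : (Fin n →₀ ℕ) → k,
          p - ∑ β ∈ s, monomial β (e β) ∈ srI k L ⊔
            Ideal.span (Set.range (fun i : Fin d => lf (fun v => c (i.castSucc, v)))) ⊔
            Ideal.span {lf (fun v => c (Fin.last d, v)) ^ (2 * q - d)} := by
  classical
  set R := MvPolynomial (Fin (d + 1) × Fin n) ℤ with hR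
  have : Finite {μ : Fin n →₀ ℕ // μ.degree = q} := (Finsupp.finite_of_degree_eq q).to_subtype
  let I1 : Fintype {μ : Fin n →₀ ℕ // μ.degree = q} := Fintype.ofFinite _
  have hfin : Finite {x : GI n d L × (Fin n →₀ ℕ) // x.2.degree + degs n d q L x.1 = q} := by
    refine Set.Finite.to_subtype (s := {x : GI n d L × (Fin n →₀ ℕ) |
      x.2.degree + degs n d q L x.1 = q}) ?_
    refine Set.Finite.subset ((Set.finite_univ (α := GI n d L)).prod
      (Finsupp.finite_of_degree_le (σ := Fin n) q)) ?_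
    rintro ⟨j, ν⟩ h
    refine ⟨Set.mem_univ _, ?_⟩
    simp only [Set.mem_setOf_eq] at h ⊢
    omega
  let I2 : Fintype {x : GI n d L × (Fin n →₀ ℕ) // x.2.degree + degs n d q L x.1 = q} :=
    Fintype.ofFinite _
  let A : {x : GI n d L × (Fin n →₀ ℕ) // x.2.degree + degs n d q L x.1 = q} →
      {μ : Fin n →₀ ℕ // μ.degree = q} → MvPolynomial (Fin (d + 1) × Fin n) ℤ :=
    fun x μ => coeff μ.1 (monomial x.1.2 (1 : MvPolynomial (Fin (d + 1) × Fin n) ℤ) *
      gens n d q L (fun y => (X y : MvPolynomial (Fin (d + 1) × Fin n) ℤ)) x.1.1)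
  let B : {β : Fin n →₀ ℕ // β ∈ s} →
      {μ : Fin n →₀ ℕ // μ.degree = q} → MvPolynomial (Fin (d + 1) × Fin n) ℤ :=
    fun β μ => if μ.1 = β.1 then 1 else 0
  -- change of coefficients of the rows
  have hrow : ∀ (k : Type) [Field k] (f : MvPolynomial (Fin (d + 1) × Fin n) ℤ →+* k)
      (x : {x : GI n d L × (Fin n →₀ ℕ) // x.2.degree + degs n d q L x.1 = q}),
      (fun μ => f (A x μ)) = coeffs k n q (monomial x.1.2 (1 : k) *
        gens n d q L (fun y => f (X y)) x.1.1) := by
    intro k _ f x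
    funext μ
    rw [coeffs_apply]
    show f (coeff μ.1 _) = _
    rw [← coeff_map, map_mul, gens_map, map_monomial, map_one]
  have hrowB : ∀ (k : Type) [Field k] (f : MvPolynomial (Fin (d + 1) × Fin n) ℤ →+* k)
      (β : {β : Fin n →₀ ℕ // β ∈ s}),
      (fun μ => f (B β μ)) = coeffs k n q (monomial β.1 (1 : k)) := by
    intro k _ f β
    funext μ
    rw [coeffs_apply]
    show f (if μ.1 = β.1 then 1 else 0) = _
    rw [coeff_monomial]
    by_cases h : μ.1 = β.1
    · rw [if_pos h, if_pos h.symm, map_one]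
    · rw [if_neg h, if_neg (fun h' => h h'.symm), map_zero]
  have hmon : ∀ (k : Type) [Field k] (c : (Fin n →₀ ℕ) → k),
      coeffs k n q (∑ β ∈ s, monomial β (c β)) =
        ∑ β : {β : Fin n →₀ ℕ // β ∈ s}, c β.1 • coeffs k n q (monomial β.1 (1 : k)) := by
    intro k _ c
    rw [map_sum, ← Finset.sum_coe_sort s]
    refine sum_congr rfl fun β _ => ?_
    rw [← map_smul, smul_monomial, smul_eq_mul, mul_one]
  obtain ⟨F, hF0, hF⟩ := Pool.Agent.Y131.KS.span2 (Fin (d + 1) × Fin n)
    ({x : GI n d L × (Fin n →₀ ℕ) // x.2.degree + degs n d q L x.1 = q} ⊕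
      {β : Fin n →₀ ℕ // β ∈ s})
    {μ : Fin n →₀ ℕ // μ.degree = q} (Sum.elim A B) (by
      intro w
      obtain ⟨p, hp, rfl⟩ := coeffs_surj (Kf (d + 1) n) n q w
      let f : MvPolynomial (Fin (d + 1) × Fin n) ℤ →+* Kf (d + 1) n :=
        (algebraMap (MvPolynomial (Fin (d + 1) × Fin n) (ZMod 2)) (Kf (d + 1) n)).comp
          (MvPolynomial.map (Int.castRingHom (ZMod 2)))
      have hfX : (fun y => f (X y)) = fun y : Fin (d + 1) × Fin n => gen (d + 1) n y.1 y.2 := by
        funext y
        simp [f, gen]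
      obtain ⟨c, hc⟩ := hfew p hp
      have hp' : (p - ∑ β ∈ s, monomial β (c β)).IsHomogeneous q := by
        refine hp.sub (IsHomogeneous.sum _ _ _ fun β hβ => isHomogeneous_monomial _ (hs β hβ))
      have h2 : p - ∑ β ∈ s, monomial β (c β) ∈
          Ideal.span (Set.range (gens n d q L (fun y => f (X y)))) := by
        rw [hfX, span_gens]
        exact hc
      have h3 := mem_span_of_homog _ _ (gens_homog n d q L (fun y => f (X y))) q _ hp' h2
      have h4 := Submodule.mem_map_of_mem (f := coeffs (Kf (d + 1) n) n q) h3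
      rw [Submodule.map_span, ← Set.range_comp] at h4
      have h5 : (fun i : {x : GI n d L × (Fin n →₀ ℕ) // x.2.degree + degs n d q L x.1 = q} =>
          fun j : {μ : Fin n →₀ ℕ // μ.degree = q} =>
          algebraMap (MvPolynomial (Fin (d + 1) × Fin n) (ZMod 2)) (Kf (d + 1) n)
          (MvPolynomial.map (Int.castRingHom (ZMod 2)) (A i j))) =
          (coeffs (Kf (d + 1) n) n q ∘ fun x => monomial x.1.2 (1 : Kf (d + 1) n) *
            gens n d q L (fun y => f (X y)) x.1.1) := by
        funext x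
        exact hrow (Kf (d + 1) n) f x
      rw [← h5] at h4
      have e1 : coeffs (Kf (d + 1) n) n q p =
          coeffs (Kf (d + 1) n) n q (p - ∑ β ∈ s, monomial β (c β)) +
          coeffs (Kf (d + 1) n) n q (∑ β ∈ s, monomial β (c β)) := by
        rw [← map_add, sub_add_cancel]
      rw [e1]
      refine Submodule.add_mem _ (Submodule.span_mono ?_ h4) ?_
      · rintro _ ⟨x, rfl⟩
        exact ⟨Sum.inl x, rfl⟩
      · rw [hmon]
        refine Submodule.sum_mem _ fun β _ => Submodule.smul_mem _ _ (Submodule.subset_span ?_)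
        refine ⟨Sum.inr β, ?_⟩
        exact hrowB (Kf (d + 1) n) f β)
  refine ⟨F, hF0, ?_⟩
  intro k _ c hc p hp
  have h1 := hF k c hc (coeffs k n q p)
  rw [Submodule.mem_span_range_iff_exists_fun] at h1
  obtain ⟨a, ha⟩ := h1
  rw [Fintype.sum_sum_type] at ha
  have hA : ∀ x, (fun μ => aeval c (A x μ)) = coeffs k n q (monomial x.1.2 (1 : k) *
        gens n d q L c x.1.1) := by
    intro x
    have := hrow k (aeval c : MvPolynomial (Fin (d + 1) × Fin n) ℤ →ₐ[ℤ] k).toRingHom x
    simpa using this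
  have hB : ∀ β, (fun μ => aeval c (B β μ)) = coeffs k n q (monomial β.1 (1 : k)) := by
    intro β
    have := hrowB k (aeval c : MvPolynomial (Fin (d + 1) × Fin n) ℤ →ₐ[ℤ] k).toRingHom β
    simpa using this
  let e : (Fin n →₀ ℕ) → k := fun β => if h : β ∈ s then a (Sum.inr ⟨β, h⟩) else 0
  refine ⟨e, ?_⟩
  have hq : ∑ x : {x : GI n d L × (Fin n →₀ ℕ) // x.2.degree + degs n d q L x.1 = q},
      a (Sum.inl x) • (monomial x.1.2 (1 : k) * gens n d q L c x.1.1) =
      p - ∑ β ∈ s, monomial β (e β) := by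
    refine coeffs_inj k n q _ _ ?_ ?_ ?_
    · refine IsHomogeneous.sum _ _ _ fun x _ => ?_
      refine (homogeneousSubmodule (Fin n) k q).smul_mem _ ?_
      have := (isHomogeneous_monomial (σ := Fin n) (d := x.1.2) (1 : k) rfl).mul
          (gens_homog n d q L c x.1.1)
      rw [x.2] at this
      exact this
    · exact hp.sub (IsHomogeneous.sum _ _ _ fun β hβ => isHomogeneous_monomial _ (hs β hβ))
    · rw [map_sub, hmon, ← ha, map_sum]
      rw [eq_sub_iff_add_eq]
      congr 1
      · refine sum_congr rfl fun x _ => ?_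
        rw [map_smul, ← hA]
        rfl
      · refine sum_congr rfl fun β _ => ?_
        rw [← hB]
        have : e β.1 = a (Sum.inr β) := by
          simp only [e]
          rw [dif_pos β.2]
        rw [this]
        rfl
  rw [← hq, ← span_gens]
  refine Submodule.sum_mem _ fun x _ => ?_
  rw [MvPolynomial.smul_eq_C_mul]
  exact Ideal.mul_mem_left _ _ (Ideal.mul_mem_left _ _ (Ideal.subset_span ⟨_, rfl⟩))

end Pool.Agent.H67.KS
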