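import Pool.Graph.R_seed8.Y131.KS.Chain

/-!
# Bilinear sums of maximal minors in characteristic two
-/

set_option autoImplicit false

namespace Pool.Agent.H67.KS

open Finset MvPolynomial Pool.Agent.W555.KS Pool.Agent.W500.KS

variable {n : ℕ}

section

variable {T : Type*} [CommRing T] {m : ℕ}

lemma lin_sq (h2 : (2 : T) = 0) (a : Fin m → Fin n → T) (v : Fin n) :
    lin a v * lin a v ∈ J m T := by
  rw [← Ideal.Quotient.eq_zero_iff_mem, map_mul, lin, map_sum]
  have h := sum_sq_zero (two_N (m := m) h2) (univ : Finset (Fin m))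
    (fun i => Ideal.Quotient.mk (J m T) (C (a i v))) (fun i => Ideal.Quotient.mk (J m T) (X i))
    (fun i => mkX_sq i)
  simpa only [map_mul] using h

/-- the element of the exterior like algebra defined by a function on the subsets -/
noncomputable def GF (a : Fin m → Fin n → T) (f : Finset (Fin n) → T) : MvPolynomial (Fin m) T :=
  ∑ σ : Finset (Fin n), C (f σ) * ∏ v ∈ σ, lin a v

lemma coeff_pair (h2 : (2 : T) = 0) (a : Fin m → Fin n → T) (σ τ : Finset (Fin n)) :
    coeff (d0 m) ((∏ v ∈ σ, lin a v) * ∏ v ∈ τ, lin a v) =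
      if Disjoint σ τ then bra a (σ ∪ τ) else 0 := by
  classical
  split_ifs with hd
  · rw [← prod_union hd, coeff_top_lin]
  · apply coeff_J
    rw [not_disjoint_iff] at hd
    obtain ⟨v, h1, h3⟩ := hd
    rw [← mul_prod_erase σ _ h1, ← mul_prod_erase τ _ h3]
    have e : lin a v * (∏ x ∈ σ.erase v, lin a x) * (lin a v * ∏ x ∈ τ.erase v, lin a x) =
        (∏ x ∈ σ.erase v, lin a x) * (∏ x ∈ τ.erase v, lin a x) * (lin a v * lin a v) := by ring
    rw [e]
    exact Ideal.mul_mem_left _ _ (lin_sq h2 a v)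

lemma coeff_GF_mul (h2 : (2 : T) = 0) (a : Fin m → Fin n → T) (f g : Finset (Fin n) → T) :
    coeff (d0 m) (GF a f * GF a g) =
      ∑ p : Finset (Fin n) × Finset (Fin n),
        if Disjoint p.1 p.2 then f p.1 * g p.2 * bra a (p.1 ∪ p.2) else 0 := by
  classical
  unfold GF
  rw [sum_mul_sum, coeff_sum, Fintype.sum_prod_type]
  refine sum_congr rfl fun σ _ => ?_
  rw [coeff_sum]
  refine sum_congr rfl fun τ _ => ?_
  have e : C (f σ) * (∏ v ∈ σ, lin a v) * (C (g τ) * ∏ v ∈ τ, lin a v) =
      C (f σ * g τ) * ((∏ v ∈ σ, lin a v) * ∏ v ∈ τ, lin a v) := by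
    rw [map_mul]; ring
  rw [e, coeff_C_mul, coeff_pair h2]
  split_ifs <;> ring

/-- the squarefree exponent vectors -/
noncomputable def sq (I : Finset (Fin m)) : Fin m →₀ ℕ := ∑ i ∈ I, Finsupp.single i 1

lemma sq_apply (I : Finset (Fin m)) (i : Fin m) : sq I i = if i ∈ I then 1 else 0 := by
  classical
  unfold sq
  rw [Finsupp.finsetSum_apply]
  simp [Finsupp.single_apply]

lemma le_d0 {p : Fin m →₀ ℕ} (h : p ≤ d0 m) : ∃ I : Finset (Fin m), p = sq I := by
  classical
  refine ⟨univ.filter fun i => p i = 1, ?_⟩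
  ext i
  have h1 := h i
  rw [d0_apply] at h1
  rw [sq_apply]
  simp only [mem_filter, mem_univ, true_and]
  split_ifs with h2
  · exact h2
  · omega

lemma sq_degree (I : Finset (Fin m)) : (sq I).degree = I.card := by
  classical
  rw [Finsupp.degree_eq_sum]
  simp only [sq_apply]
  simp

lemma lin_hom (a : Fin m → Fin n → T) (v : Fin n) : (lin a v).IsHomogeneous 1 := by
  unfold lin
  refine IsHomogeneous.sum _ _ _ fun i _ => ?_
  have h := (isHomogeneous_C (Fin m) (a i v)).mul (isHomogeneous_X T i)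
  simpa using h

lemma GF_hom (a : Fin m → Fin n → T) (f : Finset (Fin n) → T) (q : ℕ)
    (hf : ∀ σ, σ.card ≠ q → f σ = 0) : (GF a f).IsHomogeneous q := by
  classical
  unfold GF
  refine IsHomogeneous.sum _ _ _ fun σ _ => ?_
  by_cases h : σ.card = q
  · have h1 := (isHomogeneous_C (Fin m) (f σ)).mul
      (IsHomogeneous.prod σ (fun v => lin a v) (fun _ => 1) fun v _ => lin_hom a v)
    rw [← h]
    simpa using h1
  · rw [hf σ h, map_zero, zero_mul]
    exact isHomogeneous_zero _ _ _

/-- the product has no top coefficient if the first factor has no squarefree coefficient in the right degree -/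
lemma top_zero (a : Fin m → Fin n → T) (f g : Finset (Fin n) → T) (q : ℕ)
    (hf : ∀ σ, σ.card ≠ q → f σ = 0)
    (h : ∀ I : Finset (Fin m), I.card = q → coeff (sq I) (GF a f) = 0) :
    coeff (d0 m) (GF a f * GF a g) = 0 := by
  classical
  rw [coeff_mul]
  refine sum_eq_zero fun p hp => ?_
  rw [HasAntidiagonal.mem_antidiagonal] at hp
  obtain ⟨I, hI⟩ := le_d0 (p := p.1) (by rw [← hp]; exact le_self_add)
  by_cases hc : I.card = q
  · rw [hI, h I hc, zero_mul]
  · have h1 := (GF_hom a f q hf).coeff_eq_zero (d := p.1) (by rw [hI, sq_degree]; exact hc)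
    rw [h1, zero_mul]

end

end Pool.Agent.H67.KS
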